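import Pool.Agent.H83.UE.Targets

/-!
Row IBP of the board uda_modules (MP_75a732_an): integration by parts with a finite singular set.
-/

set_option autoImplicit false

open Pool.Agent.H83.UE MeasureTheory Filter Topology Metric
open scoped ENNReal

namespace Pool.Agent.H82.UDA

theorem int_mul (χ f : ℂ → ℂ) (hχ : Continuous χ) (hc : HasCompactSupport χ) (hf : Measurable f)
    (hloc : ∀ R : ℝ, ∫⁻ z in ball (0 : ℂ) R, ‖f z‖ₑ < ⊤) :
    Integrable (fun z => χ z * f z) := by
  obtain ⟨R, hR⟩ := hc.isCompact.isBounded.subset_ball (0 : ℂ)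
  obtain ⟨C, hC⟩ := hc.exists_bound_of_continuous hχ
  have hg : Integrable ((ball (0 : ℂ) R).indicator f) := by
    rw [integrable_indicator_iff measurableSet_ball]
    exact ⟨hf.aestronglyMeasurable, hloc R⟩
  have h1 : Integrable (fun z => χ z * (ball (0 : ℂ) R).indicator f z) :=
    hg.bdd_mul hχ.aestronglyMeasurable (Filter.Eventually.of_forall hC)
  refine h1.congr (Filter.Eventually.of_forall fun z => ?_)
  simp only
  by_cases hz : z ∈ ball (0 : ℂ) R
  · rw [Set.indicator_of_mem hz]
  · have : χ z = 0 := image_eq_zero_of_notMem_tsupport fun h => hz (hR h)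
    rw [this, zero_mul, zero_mul]

theorem loc_bdd (f : ℂ → ℂ) (B : ℝ) (hf : ∀ z, ‖f z‖ ≤ B) (R : ℝ) :
    ∫⁻ z in ball (0 : ℂ) R, ‖f z‖ₑ < ⊤ := by
  refine lt_of_le_of_lt (setLIntegral_mono' measurableSet_ball
    (g := fun _ => ENNReal.ofReal B) fun z _ => ?_) ?_
  · rw [← ofReal_norm]
    exact ENNReal.ofReal_le_ofReal (hf z)
  · rw [setLIntegral_const]
    exact ENNReal.mul_lt_top ENNReal.ofReal_lt_top measure_ball_lt_top

theorem loc_apply (V : ℂ → ℂ) (e : ℂ)
    (h : ∀ R : ℝ, ∫⁻ z in ball (0 : ℂ) R, ‖fderiv ℝ V z‖ₑ < ⊤) (R : ℝ) :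
    ∫⁻ z in ball (0 : ℂ) R, ‖fderiv ℝ V z e‖ₑ < ⊤ := by
  refine lt_of_le_of_lt (setLIntegral_mono' measurableSet_ball
    (g := fun z => ‖fderiv ℝ V z‖ₑ * ‖e‖ₑ) fun z _ => ?_) ?_
  · exact ContinuousLinearMap.le_opENorm _ _
  · rw [lintegral_mul_const' _ _ enorm_ne_top]
    exact ENNReal.mul_lt_top (h R) enorm_lt_top

theorem base (χ V : ℂ → ℂ) (B : ℝ) (hχ : ContDiff ℝ 1 χ) (hc : HasCompactSupport χ)
    (hV : Measurable V) (hB : ∀ z, ‖V z‖ ≤ B) (hd : ∀ z, DifferentiableAt ℝ V z)
    (hI : ∀ R : ℝ, ∫⁻ z in ball (0 : ℂ) R, ‖fderiv ℝ V z‖ₑ < ⊤) (e : ℂ) :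
    ∫ z, χ z * fderiv ℝ V z e = - ∫ z, fderiv ℝ χ z e * V z := by
  have hc' : HasCompactSupport fun z => fderiv ℝ χ z e :=
    (hc.fderiv ℝ).comp_left (g := fun L : ℂ →L[ℝ] ℂ => L e) rfl
  have hcont : Continuous fun z => fderiv ℝ χ z e :=
    (hχ.continuous_fderiv one_ne_zero).clm_apply continuous_const
  refine integral_mul_fderiv_eq_neg_fderiv_mul_of_integrable ?_ ?_ ?_ ?_ ?_
  · exact int_mul _ V hcont hc' hV (loc_bdd V B hB)
  · exact int_mul χ _ hχ.continuous hc (measurable_fderiv_apply_const ℝ V e) (loc_apply V e hI)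
  · exact int_mul χ V hχ.continuous hc hV (loc_bdd V B hB)
  · exact fun x _ => (hχ.differentiable one_ne_zero).differentiableAt
  · exact fun x _ => hd x

/-- a fixed cutoff -/
noncomputable def bp : ContDiffBump (0 : ℂ) := ⟨1, 2, one_pos, one_lt_two⟩

/-- the rescaled cutoff at `a` -/
noncomputable def cut (a : ℂ) (s : ℝ) (z : ℂ) : ℂ := ((bp (s⁻¹ • (z - a)) : ℝ) : ℂ)

theorem cut_norm (a : ℂ) (s : ℝ) (z : ℂ) : ‖1 - cut a s z‖ ≤ 1 := by
  unfold cut
  rw [← Complex.ofReal_one, ← Complex.ofReal_sub, Complex.norm_real, Real.norm_eq_abs,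
    abs_of_nonneg (sub_nonneg.2 bp.le_one)]
  have := bp.nonneg' (s⁻¹ • (z - a))
  linarith

theorem cut_contDiff (a : ℂ) (s : ℝ) : ContDiff ℝ 1 (cut a s) := by
  unfold cut
  exact Complex.ofRealCLM.contDiff.comp (bp.contDiff.comp
    ((contDiff_id.sub contDiff_const).const_smul s⁻¹))

theorem cut_zero (a : ℂ) (s : ℝ) (hs : 0 < s) (z : ℂ) (hz : 2 * s ≤ ‖z - a‖) : cut a s z = 0 := by
  unfold cut
  have : bp (s⁻¹ • (z - a)) = 0 := by
    apply bp.zero_of_le_dist
    rw [dist_zero_right, norm_smul, norm_inv, Real.norm_eq_abs, abs_of_pos hs]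
    change (2 : ℝ) ≤ _
    rw [inv_mul_eq_div, le_div_iff₀ hs]
    exact hz
  rw [this, Complex.ofReal_zero]

theorem cut_one (a : ℂ) (s : ℝ) (hs : 0 < s) (z : ℂ) (hz : ‖z - a‖ < s) : cut a s z = 1 := by
  unfold cut
  have : bp (s⁻¹ • (z - a)) = 1 := by
    apply bp.one_of_mem_closedBall
    rw [mem_closedBall, dist_zero_right, norm_smul, norm_inv, Real.norm_eq_abs, abs_of_pos hs]
    change _ ≤ (1 : ℝ)
    rw [inv_mul_eq_div, div_le_one hs]
    exact hz.le
  rw [this, Complex.ofReal_one]

theorem cut_deriv : ∃ M : ℝ, 0 ≤ M ∧ ∀ (a : ℂ) (s : ℝ), 0 < s → ∀ z,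
    ‖fderiv ℝ (cut a s) z‖ ≤ M * s⁻¹ := by
  let ψ : ℂ → ℂ := fun w => ((bp w : ℝ) : ℂ)
  have hψ : ContDiff ℝ 1 ψ := Complex.ofRealCLM.contDiff.comp bp.contDiff
  have hcs : HasCompactSupport ψ :=
    bp.hasCompactSupport.comp_left (g := fun x : ℝ => (x : ℂ)) Complex.ofReal_zero
  obtain ⟨M, hM⟩ := (hcs.fderiv ℝ).exists_bound_of_continuous (hψ.continuous_fderiv one_ne_zero)
  refine ⟨M, le_trans (norm_nonneg _) (hM 0), ?_⟩
  intro a s hs z
  have h1 : HasFDerivAt (fun z : ℂ => s⁻¹ • (z - a)) (s⁻¹ • ContinuousLinearMap.id ℝ ℂ) z :=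
    ((hasFDerivAt_id z).sub_const a).const_smul s⁻¹
  have h2 : HasFDerivAt (cut a s) ((fderiv ℝ ψ (s⁻¹ • (z - a))).comp
      (s⁻¹ • ContinuousLinearMap.id ℝ ℂ)) z :=
    ((hψ.differentiable one_ne_zero) _).hasFDerivAt.comp z h1
  rw [h2.fderiv]
  refine (ContinuousLinearMap.opNorm_comp_le _ _).trans ?_
  refine mul_le_mul (hM _) ?_ (norm_nonneg _) (le_trans (norm_nonneg _) (hM 0))
  rw [norm_smul, norm_inv, Real.norm_eq_abs, abs_of_pos hs]
  calc s⁻¹ * ‖ContinuousLinearMap.id ℝ ℂ‖ ≤ s⁻¹ * 1 :=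
        mul_le_mul_of_nonneg_left ContinuousLinearMap.norm_id_le (inv_nonneg.2 hs.le)
    _ = s⁻¹ := mul_one _

theorem cut_deriv_zero (a : ℂ) (s : ℝ) (hs : 0 < s) (z : ℂ) (hz : 2 * s < ‖z - a‖) :
    fderiv ℝ (cut a s) z = 0 := by
  have : cut a s =ᶠ[𝓝 z] fun _ => 0 := by
    have hopen : IsOpen {w : ℂ | 2 * s < ‖w - a‖} :=
      isOpen_lt continuous_const (continuous_id.sub continuous_const).norm
    filter_upwards [hopen.mem_nhds hz] with w hw
    exact cut_zero a s hs w (le_of_lt hw)
  rw [this.fderiv_eq]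
  exact fderiv_const_apply _

theorem pf_IBP : T_IBP := by
  intro χ V E
  induction E using Finset.induction generalizing V with
  | empty =>
    intro B hχ hc hV hB hd hI e
    exact base χ V B hχ hc hV hB (fun z => hd z (Finset.notMem_empty z)) hI e
  | insert a E ha ih =>
    intro B hχ hc hV hB hd hI e
    obtain ⟨M, hM0, hM⟩ := cut_deriv
    obtain ⟨C, hC⟩ := hc.exists_bound_of_continuous hχ.continuous
    have hC0 : 0 ≤ C := le_trans (norm_nonneg _) (hC 0)
    have hB0 : 0 ≤ B := le_trans (norm_nonneg _) (hB 0)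
    let s : ℕ → ℝ := fun n => 1 / ((n : ℝ) + 1)
    have hs : ∀ n, 0 < s n := fun n => Nat.one_div_pos_of_nat
    have hs0 : Tendsto s atTop (𝓝 0) := tendsto_one_div_add_atTop_nhds_zero_nat
    let W : ℕ → ℂ → ℂ := fun n z => (1 - cut a (s n) z) * V z
    have hcd : ∀ n z, DifferentiableAt ℝ (cut a (s n)) z := fun n z =>
      ((cut_contDiff a (s n)).differentiable one_ne_zero) z
    have hWd : ∀ n z, z ∉ insert a E → HasFDerivAt (W n)
        ((1 - cut a (s n) z) • fderiv ℝ V z + V z • (-(fderiv ℝ (cut a (s n)) z))) z := by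
      intro n z hz
      have h1 : HasFDerivAt (fun z => 1 - cut a (s n) z) (-(fderiv ℝ (cut a (s n)) z)) z := by
        simpa using (hcd n z).hasFDerivAt.const_sub 1
      exact h1.mul (hd z hz).hasFDerivAt
    have hae : ∀ᵐ z : ℂ, z ∉ insert a E := by
      have : (volume : Measure ℂ) ((insert a E : Finset ℂ) : Set ℂ) = 0 :=
        (Finset.finite_toSet _).measure_zero _
      exact measure_eq_zero_iff_ae_notMem.1 this
    have hWm : ∀ n, Measurable (W n) := fun n =>
      (measurable_const.sub (cut_contDiff a (s n)).continuous.measurable).mul hV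
    have hWb : ∀ n z, ‖W n z‖ ≤ B := by
      intro n z
      change ‖(1 - cut a (s n) z) * V z‖ ≤ B
      rw [norm_mul]
      calc ‖1 - cut a (s n) z‖ * ‖V z‖ ≤ 1 * B :=
            mul_le_mul (cut_norm _ _ _) (hB z) (norm_nonneg _) zero_le_one
        _ = B := one_mul B
    have hWdiff : ∀ n z, z ∉ E → DifferentiableAt ℝ (W n) z := by
      intro n z hz
      by_cases hza : z = a
      · have : W n =ᶠ[𝓝 z] fun _ => 0 := by
          rw [hza]
          filter_upwards [ball_mem_nhds a (hs n)] with w hw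
          change (1 - cut a (s n) w) * V w = 0
          rw [cut_one a (s n) (hs n) w (by rwa [← mem_ball_iff_norm]), sub_self, zero_mul]
        exact (differentiableAt_const (0 : ℂ)).congr_of_eventuallyEq this
      · exact (hWd n z (by simp [hza, hz])).differentiableAt
    have hWI : ∀ n, ∀ R : ℝ, ∫⁻ z in ball (0 : ℂ) R, ‖fderiv ℝ (W n) z‖ₑ < ⊤ := by
      intro n R
      have h1 : ∫⁻ z in ball (0 : ℂ) R, ‖fderiv ℝ (W n) z‖ₑ ≤
          ∫⁻ z in ball (0 : ℂ) R, (‖fderiv ℝ V z‖ₑ + ENNReal.ofReal (B * (M * (s n)⁻¹))) := by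
        refine lintegral_mono_ae (ae_restrict_of_ae ?_)
        filter_upwards [hae] with z hz
        rw [(hWd n z hz).fderiv]
        refine (enorm_add_le _ _).trans (add_le_add ?_ ?_)
        · rw [enorm_smul]
          calc ‖1 - cut a (s n) z‖ₑ * ‖fderiv ℝ V z‖ₑ ≤ 1 * ‖fderiv ℝ V z‖ₑ := by
                refine mul_le_mul_left ?_ _
                rw [← ofReal_norm]
                exact ENNReal.ofReal_le_one.2 (cut_norm _ _ _)
            _ = _ := one_mul _
        · rw [← ofReal_norm]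
          refine ENNReal.ofReal_le_ofReal ?_
          rw [norm_smul, norm_neg]
          exact mul_le_mul (hB z) (hM a (s n) (hs n) z) (norm_nonneg _) hB0
      refine lt_of_le_of_lt h1 ?_
      rw [lintegral_add_right _ measurable_const, setLIntegral_const]
      exact ENNReal.add_lt_top.2 ⟨hI R, ENNReal.mul_lt_top ENNReal.ofReal_lt_top
        measure_ball_lt_top⟩
    have hIH : ∀ n, ∫ z, χ z * fderiv ℝ (W n) z e = - ∫ z, fderiv ℝ χ z e * W n z := fun n =>
      ih (W n) B hχ hc (hWm n) (hWb n) (hWdiff n) (hWI n) e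
    have hc' : HasCompactSupport fun z => fderiv ℝ χ z e :=
      (hc.fderiv ℝ).comp_left (g := fun L : ℂ →L[ℝ] ℂ => L e) rfl
    have hcont : Continuous fun z => fderiv ℝ χ z e :=
      (hχ.continuous_fderiv one_ne_zero).clm_apply continuous_const
    have hi1 : Integrable (fun z => χ z * fderiv ℝ V z e) :=
      int_mul χ _ hχ.continuous hc (measurable_fderiv_apply_const ℝ V e) (loc_apply V e hI)
    have hi2 : Integrable (fun z => fderiv ℝ χ z e * V z) :=
      int_mul _ V hcont hc' hV (loc_bdd V B hB)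
    have hcut : ∀ z, z ≠ a → Tendsto (fun n => 1 - cut a (s n) z) atTop (𝓝 1) := by
      intro z hz
      have h1 : ∀ᶠ n in atTop, cut a (s n) z = 0 := by
        have hpos : 0 < ‖z - a‖ / 2 := half_pos (norm_pos_iff.2 (sub_ne_zero.2 hz))
        filter_upwards [hs0.eventually (gt_mem_nhds hpos)] with n hn
        refine cut_zero a (s n) (hs n) z ?_
        linarith
      have h2 : (fun n => 1 - cut a (s n) z) =ᶠ[atTop] fun _ => 1 := by
        filter_upwards [h1] with n hn
        rw [hn, sub_zero]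
      exact (tendsto_congr' h2).2 tendsto_const_nhds
    have haea : ∀ᵐ z : ℂ, z ≠ a := by
      filter_upwards [hae] with z hz h
      exact hz (by rw [h]; exact Finset.mem_insert_self _ _)
    have hA : Tendsto (fun n => ∫ z, χ z * ((1 - cut a (s n) z) * fderiv ℝ V z e)) atTop
        (𝓝 (∫ z, χ z * fderiv ℝ V z e)) := by
      refine tendsto_integral_of_dominated_convergence (fun z => ‖χ z * fderiv ℝ V z e‖) ?_
        hi1.norm ?_ ?_
      · intro n
        exact (hχ.continuous.measurable.mul ((measurable_const.sub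
          (cut_contDiff a (s n)).continuous.measurable).mul
            (measurable_fderiv_apply_const ℝ V e))).aestronglyMeasurable
      · intro n
        refine Filter.Eventually.of_forall fun z => ?_
        rw [norm_mul, norm_mul, norm_mul]
        refine mul_le_mul_of_nonneg_left ?_ (norm_nonneg _)
        calc ‖1 - cut a (s n) z‖ * ‖fderiv ℝ V z e‖ ≤ 1 * ‖fderiv ℝ V z e‖ :=
              mul_le_mul_of_nonneg_right (cut_norm _ _ _) (norm_nonneg _)
          _ = _ := one_mul _
      · filter_upwards [haea] with z hz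
        have := ((hcut z hz).mul_const (fderiv ℝ V z e)).const_mul (χ z)
        rwa [one_mul] at this
    have hBt : Tendsto (fun n => ∫ z, fderiv ℝ χ z e * W n z) atTop
        (𝓝 (∫ z, fderiv ℝ χ z e * V z)) := by
      refine tendsto_integral_of_dominated_convergence (fun z => ‖fderiv ℝ χ z e * V z‖) ?_
        hi2.norm ?_ ?_
      · intro n
        exact (hcont.measurable.mul (hWm n)).aestronglyMeasurable
      · intro n
        refine Filter.Eventually.of_forall fun z => ?_
        change ‖fderiv ℝ χ z e * W n z‖ ≤ ‖fderiv ℝ χ z e * V z‖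
        rw [norm_mul (fderiv ℝ χ z e) (W n z), norm_mul (fderiv ℝ χ z e) (V z)]
        have hw : ‖W n z‖ ≤ ‖V z‖ := by
          change ‖(1 - cut a (s n) z) * V z‖ ≤ ‖V z‖
          rw [norm_mul]
          calc ‖1 - cut a (s n) z‖ * ‖V z‖ ≤ 1 * ‖V z‖ :=
                mul_le_mul_of_nonneg_right (cut_norm _ _ _) (norm_nonneg _)
            _ = _ := one_mul _
        exact mul_le_mul_of_nonneg_left hw (norm_nonneg (fderiv ℝ χ z e))
      · filter_upwards [haea] with z hz
        have := ((hcut z hz).mul_const (V z)).const_mul (fderiv ℝ χ z e)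
        rwa [one_mul] at this
    have hCn : ∀ n, ‖∫ z, χ z * (fderiv ℝ (cut a (s n)) z e * V z)‖ ≤
        C * (M * ‖e‖ * B) * (4 * Real.pi) * s n := by
      intro n
      have h1 : ∫ z, χ z * (fderiv ℝ (cut a (s n)) z e * V z) =
          ∫ z in closedBall a (2 * s n), χ z * (fderiv ℝ (cut a (s n)) z e * V z) := by
        refine (setIntegral_eq_integral_of_forall_compl_eq_zero fun z hz => ?_).symm
        rw [mem_closedBall, dist_eq_norm, not_le] at hz
        rw [cut_deriv_zero a (s n) (hs n) z hz]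
        simp
      rw [h1]
      have h2 := norm_setIntegral_le_of_norm_le_const (μ := (volume : Measure ℂ))
        (s := closedBall a (2 * s n)) (C := C * (M * (s n)⁻¹ * ‖e‖ * B))
        (f := fun z => χ z * (fderiv ℝ (cut a (s n)) z e * V z)) measure_closedBall_lt_top
        (fun z _ => by
          rw [norm_mul, norm_mul]
          refine mul_le_mul (hC z) ?_ (by positivity) hC0
          refine mul_le_mul ?_ (hB z) (norm_nonneg _) (by
            have := hs n
            positivity)
          refine (ContinuousLinearMap.le_opNorm _ _).trans ?_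
          exact mul_le_mul_of_nonneg_right (hM a (s n) (hs n) z) (norm_nonneg _))
      refine h2.trans (le_of_eq ?_)
      rw [Measure.real, Complex.volume_closedBall, ENNReal.toReal_mul, ENNReal.toReal_pow,
        ENNReal.toReal_ofReal (by have := hs n; positivity)]
      have hne : s n ≠ 0 := (hs n).ne'
      have hpi : (NNReal.pi : ℝ≥0∞).toReal = Real.pi := rfl
      rw [hpi]
      field_simp
      ring
    have hC0t : Tendsto (fun n => ∫ z, χ z * (fderiv ℝ (cut a (s n)) z e * V z)) atTop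
        (𝓝 0) := by
      refine squeeze_zero_norm hCn ?_
      have := hs0.const_mul (C * (M * ‖e‖ * B) * (4 * Real.pi))
      rwa [mul_zero] at this
    have hsum : ∀ n, ∫ z, χ z * fderiv ℝ (W n) z e =
        (∫ z, χ z * ((1 - cut a (s n) z) * fderiv ℝ V z e)) -
          ∫ z, χ z * (fderiv ℝ (cut a (s n)) z e * V z) := by
      intro n
      rw [← integral_sub]
      · refine integral_congr_ae ?_
        filter_upwards [hae] with z hz
        rw [(hWd n z hz).fderiv]
        simp only [add_apply, smul_apply, neg_apply, smul_eq_mul]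
        ring
      · have : (fun z => χ z * ((1 - cut a (s n) z) * fderiv ℝ V z e)) =
            fun z => (1 - cut a (s n) z) * (χ z * fderiv ℝ V z e) := by
          funext z
          ring
        rw [this]
        exact hi1.bdd_mul (continuous_const.sub
          (cut_contDiff a (s n)).continuous).aestronglyMeasurable
            (Filter.Eventually.of_forall fun z => cut_norm a (s n) z)
      · have hm : Measurable fun z => fderiv ℝ (cut a (s n)) z e * V z :=
          (measurable_fderiv_apply_const ℝ _ e).mul hV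
        refine int_mul χ _ hχ.continuous hc hm (loc_bdd _ (M * (s n)⁻¹ * ‖e‖ * B) fun z => ?_)
        rw [norm_mul]
        refine mul_le_mul ?_ (hB z) (norm_nonneg _) (by
          have := hs n
          positivity)
        refine (ContinuousLinearMap.le_opNorm _ _).trans ?_
        exact mul_le_mul_of_nonneg_right (hM a (s n) (hs n) z) (norm_nonneg _)
    have hlim1 : Tendsto (fun n => ∫ z, χ z * fderiv ℝ (W n) z e) atTop
        (𝓝 (∫ z, χ z * fderiv ℝ V z e)) := by
      have := hA.sub hC0t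
      rw [sub_zero] at this
      exact this.congr fun n => (hsum n).symm
    have hlim2 : Tendsto (fun n => ∫ z, χ z * fderiv ℝ (W n) z e) atTop
        (𝓝 (- ∫ z, fderiv ℝ χ z e * V z)) :=
      hBt.neg.congr fun n => (hIH n).symm
    exact tendsto_nhds_unique hlim1 hlim2

end Pool.Agent.H82.UDA
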