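import Pool.Agent.H83.UE.Targets

/-!
Row MAR of the board uda_modules (MP_75a732_an): integrals of products against the diagonal
coefficients of a current.
-/

set_option autoImplicit false

open Pool.Agent.H83.UE MeasureTheory
open scoped ENNReal

namespace Pool.Agent.H82.UDA

theorem lmarginal_prod {ι : Type} [Fintype ι] [DecidableEq ι] (μ : ι → Measure ℂ)
    [∀ i, SigmaFinite (μ i)] (f : ι → ℂ → ℝ≥0∞) (hf : ∀ i, Measurable (f i)) (s : Finset ι)
    (x : ι → ℂ) :
    (∫⋯∫⁻_s, (fun a : ι → ℂ => ∏ i, f i (a i)) ∂μ) x =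
      (∏ i ∈ s, ∫⁻ t, f i t ∂μ i) * ∏ i ∈ Finset.univ \ s, f i (x i) := by
  have hPm : Measurable (fun a : ι → ℂ => ∏ i, f i (a i)) :=
    Finset.measurable_fun_prod _ fun i _ => (hf i).comp (measurable_pi_apply i)
  induction s using Finset.induction generalizing x with
  | empty => simp
  | insert j s hj ih =>
    rw [lmarginal_insert _ hPm hj]
    have h1 : ∀ t : ℂ, (∫⋯∫⁻_s, (fun a : ι → ℂ => ∏ i, f i (a i)) ∂μ) (Function.update x j t) =
        f j t * ((∏ i ∈ s, ∫⁻ t, f i t ∂μ i) * ∏ i ∈ Finset.univ \ insert j s, f i (x i)) := by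
      intro t
      rw [ih]
      have h2 : Finset.univ \ s = insert j (Finset.univ \ insert j s) := by
        ext i
        by_cases hi : i = j
        · subst hi
          simp [hj]
        · simp [hi]
      have h3 : j ∉ Finset.univ \ insert j s := by simp
      rw [h2, Finset.prod_insert h3, Function.update_self]
      have h4 : ∏ i ∈ Finset.univ \ insert j s, f i (Function.update x j t i) =
          ∏ i ∈ Finset.univ \ insert j s, f i (x i) := by
        refine Finset.prod_congr rfl fun i hi => ?_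
        have h5 : i ≠ j := fun h => h3 (h ▸ hi)
        rw [Function.update_of_ne h5]
      rw [h4]
      ring
    simp_rw [h1]
    rw [lintegral_mul_const _ (hf j), Finset.prod_insert hj]
    ring

theorem lintegral_pi_prod {ι : Type} [Fintype ι] (μ : ι → Measure ℂ)
    [∀ i, SigmaFinite (μ i)] (f : ι → ℂ → ℝ≥0∞) (hf : ∀ i, Measurable (f i)) :
    ∫⁻ x, ∏ i, f i (x i) ∂(Measure.pi μ) = ∏ i, ∫⁻ t, f i t ∂μ i := by
  classical
  have h1 := lmarginal_prod μ f hf Finset.univ (fun _ => 0)
  rw [lmarginal_univ] at h1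
  refine Eq.trans h1 ?_
  simp

theorem pf_MAR : T_MAR := by
  intro k m S J ρ hρ
  classical
  have hm : Measurable fun z : Fin k → ℂ => ENNReal.ofReal (S.h z J J).re :=
    (Complex.measurable_re.comp (S.meas J J)).ennreal_ofReal
  let π : (Fin k → ℂ) → ({j // j ∈ J.1} → ℂ) := fun z j => z j.1
  have hπ : Measurable π := measurable_pi_lambda _ fun j => measurable_pi_apply _
  let f : ({j // j ∈ J.1} → ℂ) → ℝ≥0∞ := fun y => ∏ j, ρ j.1 (y j)
  have hf : Measurable f :=
    Finset.measurable_prod _ fun j _ => (hρ j.1).comp (measurable_pi_apply j)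
  have e1 : ∫⁻ z, (∏ j ∈ J.1, ρ j (z j)) * ENNReal.ofReal (S.h z J J).re ∂S.σ
      = ∫⁻ y, f y ∂((S.σ.withDensity fun z => ENNReal.ofReal (S.h z J J).re).map π) := by
    rw [lintegral_map hf hπ]
    refine Eq.trans ?_ (lintegral_withDensity_eq_lintegral_mul _ hm (hf.comp hπ)).symm
    refine lintegral_congr fun z => ?_
    simp only [Pi.mul_apply]
    rw [mul_comm]
    exact congrArg (fun t => ENNReal.ofReal (S.h z J J).re * t)
      (Finset.prod_coe_sort J.1 (fun j => ρ j (z j))).symm
  rw [e1, S.marg J, lintegral_smul_measure]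
  have e2 : ∫⁻ y, f y = ∏ j : {j // j ∈ J.1}, ∫⁻ x, ρ j.1 x := by
    exact lintegral_pi_prod (fun _ => (volume : Measure ℂ)) (fun j : {j // j ∈ J.1} => ρ j.1)
      (fun j => hρ j.1)
  rw [e2, smul_eq_mul]
  exact congrArg (fun t => (S.c J : ℝ≥0∞) * t)
    (Finset.prod_coe_sort J.1 (fun j => ∫⁻ x, ρ j x))

end Pool.Agent.H82.UDA
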